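import Pool.Agent.H272R2.TP.G1of

/-!
# A counterexample to Keller's conjecture in dimension 8

The value of the function at `x` is the digit number `x` of `kellerNum` to the base `256`. The table
was found by a search among the unions of orbits of groups of order 8 of symmetries of the Keller
graph (the existence of such a table is the theorem of Mackey, 2002).
-/

set_option autoImplicit false

namespace H947TP

/-- the table, as one number -/
def kellerNum : ℕ := 22348004590906137420322131769757178651129922944230849631955235253629609818106138780495238579468508870177097143215504362201170973562798736585668348991383025507770085207952546182579090503096905850896186313676378417579324364420500835402779891375638426283214200220027695916541666149871360027743367717457063762714773414359800736625436146557266067488473831166262224048345168024268584416979564850045705054971684343887608620348557947063940026602851019645732306658297378846469900002125230065787365570398452299897204312939301497314401830689610598753704580191666487805736268093443726216980657903448730627801900157439226918300605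

theorem kellerNum_check :
    g1check 8 (fun x => (kellerNum >>> (8 * x)) % 2 ^ 8) = true := by
  decide +kernel

/-- G1: a counterexample to Keller's conjecture in dimension `8` -/
theorem G1 : St_G1 8 := G1_of_num kellerNum kellerNum_check

end H947TP
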