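import Pool.Agent.H947R2.TP.Stubs

/-!
# Keller functions from a table: the transfer from numbers to bit vectors
-/

set_option autoImplicit false

namespace H947TP

/-- the check for the pair `x`, `y` of bit vectors of length `n`, given as numbers -/
def g1pair (n : ℕ) (F : ℕ → ℕ) (x y : ℕ) : Bool :=
  ((x ^^^ y) &&& ((F x ^^^ F y) ^^^ (2 ^ n - 1)) != 0) &&
    (!((x ^^^ y) &&& ((x ^^^ y) - 1) == 0) || F x != F y)

/-- the whole check: the values are smaller than `2 ^ n` and all pairs are good -/
def g1check (n : ℕ) (F : ℕ → ℕ) : Bool :=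
  (List.range (2 ^ n)).all (fun x => decide (F x < 2 ^ n) &&
    (List.range x).all (fun y => g1pair n F x y))

/-- the number with the bits `q` -/
def g1num {n : ℕ} (q : Fin n → Bool) : ℕ := (BitVec.ofBoolListLE (List.ofFn q)).toNat

theorem g1num_lt {n : ℕ} (q : Fin n → Bool) : g1num q < 2 ^ n := by
  exact lt_of_lt_of_eq (BitVec.ofBoolListLE (List.ofFn q)).isLt (by rw [List.length_ofFn])

theorem g1num_testBit {n : ℕ} (q : Fin n → Bool) (i : Fin n) : (g1num q).testBit i = q i := by
  have h : (BitVec.ofBoolListLE (List.ofFn q)).toNat.testBit i =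
      (BitVec.ofBoolListLE (List.ofFn q)).getLsbD i := rfl
  unfold g1num
  rw [h, BitVec.getLsbD_ofBoolListLE, List.getD_eq_getElem?_getD, List.getElem?_ofFn]
  simp

theorem g1num_inj {n : ℕ} {q q' : Fin n → Bool} (h : g1num q = g1num q') : q = q' := by
  funext i
  rw [← g1num_testBit q i, ← g1num_testBit q' i, h]

theorem g1pair_comm (n : ℕ) (F : ℕ → ℕ) (x y : ℕ) : g1pair n F x y = g1pair n F y x := by
  unfold g1pair
  rw [Nat.xor_comm x y, Nat.xor_comm (F x) (F y), bne_comm (a := F x)]

theorem g1pair_of_check {n : ℕ} {F : ℕ → ℕ} (h : g1check n F = true) {x y : ℕ} (hx : x < 2 ^ n)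
    (hy : y < 2 ^ n) (hxy : x ≠ y) : g1pair n F x y = true := by
  unfold g1check at h
  rw [List.all_eq_true] at h
  rcases lt_or_gt_of_ne hxy with h1 | h1
  · have h2 := h y (List.mem_range.2 hy)
    rw [Bool.and_eq_true, List.all_eq_true] at h2
    rw [g1pair_comm]
    exact h2.2 x (List.mem_range.2 h1)
  · have h2 := h x (List.mem_range.2 hx)
    rw [Bool.and_eq_true, List.all_eq_true] at h2
    exact h2.2 y (List.mem_range.2 h1)

theorem g1lt_of_check {n : ℕ} {F : ℕ → ℕ} (h : g1check n F = true) {x : ℕ} (hx : x < 2 ^ n) :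
    F x < 2 ^ n := by
  unfold g1check at h
  rw [List.all_eq_true] at h
  have h2 := h x (List.mem_range.2 hx)
  rw [Bool.and_eq_true] at h2
  exact of_decide_eq_true h2.1

/-- a table which passes the check is a Keller function -/
theorem keller_of_check {n : ℕ} {F : ℕ → ℕ} (h : g1check n F = true) :
    Keller (fun q : Fin n → Bool => bits n (F (g1num q))) := by
  constructor
  · intro q q' hq
    have hne : g1num q ≠ g1num q' := fun h => hq (g1num_inj h)
    have h1 := g1pair_of_check h (g1num_lt q) (g1num_lt q') hne
    unfold g1pair at h1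
    rw [Bool.and_eq_true, bne_iff_ne] at h1
    obtain ⟨i, hi⟩ := Nat.exists_testBit_of_ne_zero h1.1
    rw [Nat.testBit_and, Nat.testBit_xor, Nat.testBit_xor, Nat.testBit_xor,
      Nat.testBit_two_pow_sub_one, Bool.and_eq_true] at hi
    obtain ⟨hi1, hi2⟩ := hi
    have hin : i < n := by
      by_contra hcon
      push Not at hcon
      have h2 : (g1num q).testBit i = false :=
        Nat.testBit_lt_two_pow ((g1num_lt q).trans_le (Nat.pow_le_pow_right (by norm_num) hcon))
      have h3 : (g1num q').testBit i = false :=
        Nat.testBit_lt_two_pow ((g1num_lt q').trans_le (Nat.pow_le_pow_right (by norm_num) hcon))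
      rw [h2, h3] at hi1
      simp at hi1
    refine ⟨⟨i, hin⟩, ?_, ?_⟩
    · have e1 := g1num_testBit q ⟨i, hin⟩
      have e2 := g1num_testBit q' ⟨i, hin⟩
      simp only at e1 e2
      rw [← e1, ← e2]
      intro hcon
      rw [hcon] at hi1
      simp at hi1
    · show (F (g1num q)).testBit i = (F (g1num q')).testBit i
      rw [decide_eq_true hin] at hi2
      revert hi2
      cases (F (g1num q)).testBit i <;> cases (F (g1num q')).testBit i <;> simp
  · intro q i hf
    set q' := Function.update q i (!q i) with hq'
    have hqi : q' i = !q i := by rw [hq', Function.update_self]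
    have hqj : ∀ j, j ≠ i → q' j = q j := fun j hj => by rw [hq', Function.update_of_ne hj]
    have hne : g1num q' ≠ g1num q := by
      intro hcon
      have := congrFun (g1num_inj hcon) i
      rw [hqi] at this
      cases hb : q i <;> rw [hb] at this <;> simp at this
    have hx : g1num q' ^^^ g1num q = 2 ^ (i : ℕ) := by
      apply Nat.eq_of_testBit_eq
      intro j
      rw [Nat.testBit_xor, Nat.testBit_two_pow]
      by_cases hj : j < n
      · have e1 := g1num_testBit q ⟨j, hj⟩
        have e2 := g1num_testBit q' ⟨j, hj⟩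
        simp only at e1 e2
        rw [e1, e2]
        by_cases hji : (⟨j, hj⟩ : Fin n) = i
        · subst hji
          rw [hqi]
          cases q ⟨j, hj⟩ <;> simp
        · rw [hqj _ hji]
          have : ¬ (i : ℕ) = j := fun hc => hji (Fin.ext hc.symm)
          simp [this]
      · push Not at hj
        have h2 : (g1num q).testBit j = false :=
          Nat.testBit_lt_two_pow ((g1num_lt q).trans_le (Nat.pow_le_pow_right (by norm_num) hj))
        have h3 : (g1num q').testBit j = false :=
          Nat.testBit_lt_two_pow ((g1num_lt q').trans_le (Nat.pow_le_pow_right (by norm_num) hj))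
        rw [h2, h3]
        have : ¬ (i : ℕ) = j := by
          have := i.isLt
          omega
        simp [this]
    have h1 := g1pair_of_check h (g1num_lt q') (g1num_lt q) hne
    unfold g1pair at h1
    rw [Bool.and_eq_true, Bool.or_eq_true, hx] at h1
    have h2 : (2 ^ (i : ℕ) &&& (2 ^ (i : ℕ) - 1)) = 0 := by
      rw [Nat.and_two_pow_sub_one_eq_mod, Nat.mod_self]
    rw [h2] at h1
    have h3 : F (g1num q') ≠ F (g1num q) := by
      rcases h1.2 with h4 | h4
      · simp at h4
      · exact bne_iff_ne.1 h4
    apply h3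
    apply Nat.eq_of_testBit_eq
    intro j
    by_cases hj : j < n
    · exact congrFun hf ⟨j, hj⟩
    · push Not at hj
      rw [Nat.testBit_lt_two_pow ((g1lt_of_check h (g1num_lt q')).trans_le
          (Nat.pow_le_pow_right (by norm_num) hj)),
        Nat.testBit_lt_two_pow ((g1lt_of_check h (g1num_lt q)).trans_le
          (Nat.pow_le_pow_right (by norm_num) hj))]

theorem G1_of {n : ℕ} (F : ℕ → ℕ) (h : g1check n F = true) : St_G1 n := ⟨_, keller_of_check h⟩

/-- the table as one number: the value at `x` is the digit number `x` to the base `2 ^ n` -/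
theorem G1_of_num {n : ℕ} (N : ℕ) (h : g1check n (fun x => (N >>> (n * x)) % 2 ^ n) = true) :
    St_G1 n := G1_of _ h

end H947TP
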